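import Pool.Agent.Helper29.ZR.Props
import Pool.Agent.Helper10.RC.Homs

/-!
# ZR, packet RoomB: room from comparison in the fixed point algebra
-/

open scoped ENNReal NNReal InnerProductSpace ComplexOrder
open Filter Topology

attribute [-instance] CStarMatrix.instAlgebra CStarMatrix.instModule CStarMatrix.instSMul
  CStarMatrix.instMulAction CStarMatrix.instDistribMulAction

set_option linter.unusedSectionVars false

noncomputable section
namespace RC
universe u

namespace RoomB16

variable {A : Type u} [CStarAlgebra A] [PartialOrder A] [StarOrderedRing A]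
variable {B : Type u} [CStarAlgebra B] [PartialOrder B] [StarOrderedRing B]
variable {ι κ μ ν : Type} [Fintype ι] [DecidableEq ι] [Fintype κ] [DecidableEq κ]
  [Fintype μ] [DecidableEq μ] [Fintype ν] [DecidableEq ν]

theorem mp_apply (j : B → A) (x : CStarMatrix ι κ B) (i : ι) (l : κ) :
    mp j x i l = j (x i l) := rfl

theorem mp_mul (j : B →⋆ₐ[ℂ] A) (x : CStarMatrix ι κ B) (y : CStarMatrix κ μ B) :
    mp j (x * y) = mp j x * mp j y := by
  ext i l
  rw [mp_apply, CStarMatrix.mul_apply, CStarMatrix.mul_apply, map_sum]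
  exact Finset.sum_congr rfl fun k _ => map_mul j _ _

theorem mp_conj (j : B →⋆ₐ[ℂ] A) (x : CStarMatrix ι κ B) :
    mp j x.conjTranspose = (mp j x).conjTranspose := by
  ext i l
  exact map_star j _

theorem mp_add (j : B →⋆ₐ[ℂ] A) (x y : CStarMatrix ι κ B) :
    mp j (x + y) = mp j x + mp j y := by
  ext i l
  exact map_add j _ _

theorem mp_sub (j : B →⋆ₐ[ℂ] A) (x y : CStarMatrix ι κ B) :
    mp j (x - y) = mp j x - mp j y := by
  ext i l
  exact map_sub j _ _

theorem mp_one (j : B →⋆ₐ[ℂ] A) : mp j (1 : CStarMatrix ι ι B) = 1 := by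
  ext i l
  rw [mp_apply, CStarMatrix.one_apply, CStarMatrix.one_apply]
  split_ifs
  · exact map_one j
  · exact map_zero j

theorem mp_rsmul (j : B →⋆ₐ[ℂ] A) (c : ℝ) (x : CStarMatrix ι κ B) :
    mp j (c • x) = c • mp j x := by
  ext i l
  show j (c • x i l) = c • j (x i l)
  rw [← Complex.coe_smul, ← Complex.coe_smul, map_smul]

theorem one1_entry (x : CStarMatrix Unit Unit A) : one1 (x () ()) = x := by
  ext i l
  rfl

theorem mp_mono (hMp : MpP.{u}) (j : B →⋆ₐ[ℂ] A) (hj : Function.Injective j)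
    {x y : CStarMatrix ι ι B} (h : x ≤ y) : mp j x ≤ mp j y := by
  have h1 := (hMp A B j hj ι ι (y - x) (y - x)).1.1 (sub_nonneg.2 h)
  rw [mp_sub] at h1
  exact sub_nonneg.1 h1

theorem mp_nonneg (hMp : MpP.{u}) (j : B →⋆ₐ[ℂ] A) (hj : Function.Injective j)
    {x : CStarMatrix ι ι B} (h : 0 ≤ x) : 0 ≤ mp j x :=
  (hMp A B j hj ι ι x x).1.1 h

theorem dim_zero (σ : QTrace A) : σ.dim (0 : CStarMatrix ι ι A) = 0 := by
  have h : ∀ n : ℕ, σ.τ ι (cfc (fun t : ℝ => min 1 ((n : ℝ) * t)) (0 : CStarMatrix ι ι A))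
      = 0 := by
    intro n
    have h1 : cfc (fun t : ℝ => min 1 ((n : ℝ) * t)) (0 : CStarMatrix ι ι A) = 0 := by
      rw [cfc_apply_zero]
      simp
    rw [h1, QTrace.zero]
  unfold QTrace.dim
  simp only [h]
  exact ciSup_const

theorem dim_add (hAdd : CuAddP.{u}) (hMo : QMonoP.{u}) (hDs : QDsumP.{u}) (σ : QTrace A)
    {a b : CStarMatrix ι ι A} (ha : 0 ≤ a) (hb : 0 ≤ b) :
    σ.dim (a + b) ≤ σ.dim a + σ.dim b := by
  have h1 := hAdd A ι a b 0 0 le_rfl le_rfl ha hb
  rw [add_zero, cut_zero (add_nonneg ha hb), cut_zero ha, cut_zero hb] at h1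
  obtain ⟨h2, h3⟩ := hDs A σ ι ι a b ha hb
  rw [← h3]
  exact hMo A σ ι (ι ⊕ ι) _ _ (add_nonneg ha hb) h2 h1

theorem dim_sum (hAdd : CuAddP.{u}) (hMo : QMonoP.{u}) (hDs : QDsumP.{u}) (σ : QTrace A)
    {G : Type} (s : Finset G) (f : G → CStarMatrix ι ι A) (hf : ∀ g, 0 ≤ f g) (D : ℝ)
    (hD : ∀ g, σ.dim (f g) ≤ D) : σ.dim (∑ g ∈ s, f g) ≤ s.card * D := by
  classical
  induction s using Finset.induction_on with
  | empty => simp [dim_zero]
  | insert g s hg ih =>
    rw [Finset.sum_insert hg, Finset.card_insert_of_notMem hg]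
    have h1 := dim_add hAdd hMo hDs σ (hf g) (Finset.sum_nonneg (s := s) fun g _ => hf g)
    push_cast
    have h2 := hD g
    linarith

theorem dim_swap (hSw : CuSwapP.{u}) (hMo : QMonoP.{u}) (σ : QTrace A)
    (z : CStarMatrix ι κ A) : σ.dim (z * z.conjTranspose) ≤ σ.dim (z.conjTranspose * z) := by
  have h1 := hSw A ι κ z 0 le_rfl
  rw [cut_zero (cm_mul_conj_nonneg z), cut_zero (cm_conj_mul_nonneg z)] at h1
  exact hMo A σ ι κ _ _ (cm_mul_conj_nonneg z) (cm_conj_mul_nonneg z) h1

end RoomB16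

open RoomB16 in
/-- **RoomB.** -/
theorem roomB (hPert : PertP.{u}) (hRk : RkSP.{u}) (hMp : MpP.{u}) (hPull : QPullP.{u})
    (hDim : DimP.{u}) (hMo : QMonoP.{u}) (hDs : QDsumP.{u}) (hAdd : CuAddP.{u})
    (hSw : CuSwapP.{u}) : RoomBP.{u} := by
  intro A B _ _ _ _ _ _ G _ _ α j hact hfix ν _ _ c e m r hc he hm hr hTCG hdom θ hθ
    z κ ε hκ hε
  obtain ⟨hj, hfix⟩ := hfix
  -- the automorphisms as homomorphisms
  set a : G → (A →⋆ₐ[ℂ] A) := fun g => (α g : A →⋆ₐ[ℂ] A) with ha
  have haα : ∀ g x, a g x = α g x := fun g x => rfl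
  have hainj : ∀ g, Function.Injective (a g) := fun g => (α g).injective
  have ha1 : ∀ x : A, α 1 x = x := by
    intro x
    have h1 := hact 1 1 x
    rw [one_mul] at h1
    exact (EquivLike.injective (α 1) h1).symm
  have hajb : ∀ (g : G) (b : B), α g (j b) = j b := fun g b => (hfix (j b)).2 ⟨b, rfl⟩ g
  set e' : A := j e with he'
  have he'0 : 0 ≤ e' := map_nonneg j he
  set c' : CStarMatrix ν ν A := mp j c with hc'
  have hc'0 : 0 ≤ c' := mp_nonneg hMp j hj hc
  have hc'sa : c'.conjTranspose = c' := by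
    rw [cm_star_eq]
    exact hc'0.isSelfAdjoint
  have he'sa : (one1 e').conjTranspose = one1 e' := by
    rw [cm_star_eq]
    exact (one1_nonneg he'0).isSelfAdjoint
  set T : CStarMatrix ν Unit A := c' * z * one1 e' with hT
  have hTT : T * T.conjTranspose = c' * (z * (one1 e' * one1 e') * z.conjTranspose) * c' := by
    rw [hT, cm_conj_mul, cm_conj_mul, hc'sa, he'sa]
    simp only [cm_assoc]
  have hTT0 : 0 ≤ T * T.conjTranspose := cm_mul_conj_nonneg T
  set SA : CStarMatrix ν ν A := ∑ g, mp (a g) (T * T.conjTranspose) with hSA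
  have hterm : ∀ g, 0 ≤ mp (a g) (T * T.conjTranspose) := fun g =>
    mp_nonneg hMp (a g) (hainj g) hTT0
  have hSA0 : 0 ≤ SA := Finset.sum_nonneg fun g _ => hterm g
  -- `T T* ≤ S`
  have hle : T * T.conjTranspose ≤ SA := by
    have h1 : mp (a 1) (T * T.conjTranspose) = T * T.conjTranspose := by
      ext p q
      rw [mp_apply, haα, ha1]
    have h2 := Finset.single_le_sum (f := fun g => mp (a g) (T * T.conjTranspose))
      (fun g _ => hterm g) (Finset.mem_univ (1 : G))
    simp only [h1] at h2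
    exact h2
  -- `S = c Y c`
  have hSY : SA = c' * (∑ g, mp (a g) (z * (one1 e' * one1 e') * z.conjTranspose)) * c' := by
    have hs : ∀ f : G → CStarMatrix ν ν A, c' * (∑ g, f g) * c' = ∑ g, c' * f g * c' := by
      intro f
      rw [Finset.mul_sum, Finset.sum_mul]
    rw [hs, hSA]
    apply Finset.sum_congr rfl
    intro g _
    have hac : mp (a g) c' = c' := by
      ext p q
      exact hajb g _
    rw [hTT, mp_mul, mp_mul, hac]
  -- `S` comes from `B`
  have hSfix : ∀ p q, ∃ b : B, j b = SA p q := by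
    intro p q
    apply (hfix _).1
    intro h
    have hent : SA p q = ∑ g, α g ((T * T.conjTranspose) p q) := by
      rw [hSA]
      exact Matrix.sum_apply _ _ _ _
    rw [hent, map_sum]
    have h1 : ∀ g, α h (α g ((T * T.conjTranspose) p q))
        = α (h * g) ((T * T.conjTranspose) p q) := fun g => (hact h g _).symm
    simp only [h1]
    exact Fintype.sum_equiv (Equiv.mulLeft h) _ _ fun g => rfl
  choose sb hsb using hSfix
  set SB : CStarMatrix ν ν B := CStarMatrix.ofMatrix (Matrix.of sb) with hSB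
  have hSBA : mp j SB = SA := by
    ext p q
    exact hsb p q
  have hSB0 : 0 ≤ SB := by
    have h1 := (hMp A B j hj ν ν SB SB).1.2
    rw [hSBA] at h1
    exact h1 hSA0
  -- the rank of `S`
  have hTTs : ∃ p : A, T.conjTranspose * T = one1 (sq (p * e' * 1)) := by
    obtain ⟨P, hP⟩ := CStarAlgebra.nonneg_iff_eq_star_mul_self.mp
      (cm_conj_mul_nonneg (c' * z))
    refine ⟨P () (), ?_⟩
    have h1 : T.conjTranspose * T
        = one1 e' * ((c' * z).conjTranspose * (c' * z)) * one1 e' := by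
      rw [hT, cm_conj_mul, he'sa]
      simp only [cm_assoc]
    have h2 : one1 (sq (P () () * e' * 1)) = star (one1 (P () ()) * one1 e' * one1 1) *
        (one1 (P () ()) * one1 e' * one1 (1 : A)) := by
      show one1H (sq (P () () * e' * 1)) = star (one1H (P () ()) * one1H e' * one1H 1) *
        (one1H (P () ()) * one1H e' * one1H (1 : A))
      simp only [sq, map_mul, map_star]
    have h3 : (one1 (1 : A)) = (1 : CStarMatrix Unit Unit A) := map_one one1H
    rw [h1, hP, h2, one1_entry, h3, mul_one, star_mul]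
    have h4 : star (one1 e') = one1 e' := he'sa
    rw [h4]
    simp only [mul_assoc]
  have hdimS : ∀ σ : QTrace A, σ.dim SA ≤ Fintype.card G * σ.dim (one1 e') := by
    intro σ
    rw [hSA, ← Finset.card_univ]
    apply dim_sum hAdd hMo hDs σ Finset.univ _ hterm
    intro g
    obtain ⟨ω, hω⟩ := hPull A A (a g) (hainj g) σ
    rw [← hω ν _ hTT0]
    refine (dim_swap hSw hMo ω T).trans ?_
    obtain ⟨p, hp⟩ := hTTs
    rw [hp]
    refine ((hDim A ω).2.2.1 e' p 1 he'0).trans ?_
    rw [hω Unit _ (one1_nonneg he'0)]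
    have h5 : mp (a g) (one1 e') = one1 e' := by
      ext i l
      exact hajb g e
    rw [h5]
  -- the perturbation argument
  have main := hPert A ν Unit c' SA
    (∑ g, mp (a g) (z * (one1 e' * one1 e') * z.conjTranspose)) e' (fun _ => z) hc'0 he'0 hSA0
    hSY (fun _ => hle) θ ?_ κ ε hκ hε
  · obtain ⟨z', δ, l, hδ, hl, hSm, hn, hin⟩ := main
    refine ⟨z' (), δ, l, hδ, hl, hSm, hn (), ?_⟩
    simpa using hin
  · intro δ ε' hδ hε'
    set b : CStarMatrix ν ν B := c * (nE δ SB * nE δ SB) * c with hb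
    have hb0 : 0 ≤ b := (hRk B ν c SB δ hc hSB0 hδ).1
    have hcomp : ∀ ω : QTrace B, ω.dim (one1 e) + r < ω.dim b := by
      intro ω
      obtain ⟨σ, h1, h2⟩ := hdom ω
      have h3 := (hRk B ν c SB δ hc hSB0 hδ).2 ω
      have h4 := h2 ν SB hSB0
      rw [hSBA] at h4
      have h5 := mul_le_mul_of_nonneg_left (hdimS σ) hm
      have h6 := h2 Unit (one1 e) (one1_nonneg he)
      rw [mp_one1] at h6
      nlinarith
    obtain ⟨y, h, hh, hin, hdh⟩ := hTCG Unit ν (one1 e) b (one1_nonneg he) hb0 hcomp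
      (min ε' θ) (lt_min hε' hθ)
    obtain ⟨P, hP⟩ := CStarAlgebra.nonneg_iff_eq_star_mul_self.mp hh
    have hh1 : h = one1 (h () ()) := (one1_entry h).symm
    have hh0 : 0 ≤ h () () := by
      have h1 : h () () = star (P () ()) * P () () := by
        rw [hP, CStarMatrix.mul_apply]
        simp [CStarMatrix.star_apply]
      rw [h1]
      exact star_mul_self_nonneg _
    have hl : one1 (j (h () ())) = mp j h := by
      rw [hh1]
      rfl
    refine ⟨fun _ => mp j y, j (h () ()), map_nonneg j hh0, ?_, ?_⟩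
    · intro φ σ _
      obtain ⟨ω, hω⟩ := hPull A B j hj σ
      rw [hl, ← hω Unit h hh]
      exact (hdh ω).le.trans (min_le_right _ _)
    · have h1 := mp_mono hMp j hj hin
      rw [mp_one1, mp_add, mp_add, mp_mul, mp_mul, mp_conj, mp_rsmul, mp_one] at h1
      have h2 : mp j b = c' * (nE δ SA * nE δ SA) * c' := by
        have h3 : mp j (nE δ SB) = nE δ SA := by
          have := (hMp A B j hj ν ν SB SB).2.2.2 (fun t : ℝ => max 0 (1 - t / δ))
            (by fun_prop) hSB0.isSelfAdjoint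
          rw [hSBA] at this
          exact this
        rw [hb, mp_mul, mp_mul, mp_mul, h3]
      rw [h2] at h1
      have h4 : min ε' θ • (1 : CStarMatrix Unit Unit A) ≤ ε' • (1 : CStarMatrix Unit Unit A) :=
        smul_le_smul_of_nonneg_right (min_le_left _ _) zero_le_one
      rw [hl]
      simp only [Finset.univ_unique, Finset.sum_singleton]
      exact h1.trans (add_le_add le_rfl h4)

end RC
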